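import Pool.Agent.K1H2.UB.Stm

/-!
# The exponential supermartingale
-/

set_option autoImplicit false

open scoped ENNReal
open Finset Pool.Agent.K1H53.BI Pool.Agent.K1H2.UB

namespace Pool.Agent.K1H96.UB

/-- the exponent -/
noncomputable def Phx (b : V → ℝ) (s : St) : ℝ := ∑ y ∈ s.A, b y + (s.L.map b).sum + s.m * b 0

theorem WW_pos {z : V} {b : V → ℝ} {s : St} (h : z ∉ s.A) :
    WW z b s = ENNReal.ofReal (Real.exp (-Phx b s)) := by
  unfold WW
  rw [if_neg h]
  rfl

theorem WW_zero {z : V} {b : V → ℝ} {s : St} (h : z ∈ s.A) : WW z b s = 0 := by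
  unfold WW
  rw [if_pos h]

theorem WW_put (z : V) (b : V → ℝ) (s : St) (y : V) :
    WW z b (put s y) ≤ ENNReal.ofReal (Real.exp (-b y)) * WW z b s := by
  by_cases hz : z ∈ s.A
  · have : z ∈ (put s y).A := by
      unfold put
      split_ifs
      · exact hz
      · exact mem_insert_of_mem hz
    rw [WW_zero this]
    exact zero_le
  · rw [WW_pos hz, ← ENNReal.ofReal_mul (Real.exp_pos _).le, ← Real.exp_add]
    by_cases hy : y ∈ s.A
    · have e : put s y = ⟨s.A, y :: s.L, s.m⟩ := by unfold put; rw [if_pos hy]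
      rw [e, WW_pos (s := ⟨s.A, y :: s.L, s.m⟩) hz]
      apply le_of_eq
      congr 2
      unfold Phx
      simp only [List.map_cons, List.sum_cons]
      ring
    · have e : put s y = ⟨insert y s.A, s.L, s.m⟩ := by unfold put; rw [if_neg hy]
      rw [e]
      by_cases hyz : z = y
      · rw [WW_zero (s := ⟨insert y s.A, s.L, s.m⟩) (by rw [hyz]; exact mem_insert_self _ _)]
        exact zero_le
      · rw [WW_pos (s := ⟨insert y s.A, s.L, s.m⟩) (by
          simp only [mem_insert, not_or]; exact ⟨hyz, hz⟩)]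
        apply le_of_eq
        congr 2
        unfold Phx
        simp only [sum_insert hy]
        ring

/-- the mean factor -/
noncomputable def mm (b : V → ℝ) (x : V) : ℝ≥0∞ :=
  ENNReal.ofReal ((∑ e : Fin 3 × Bool, Real.exp (-b (x + dir e))) / 6)

theorem mm_eq (b : V → ℝ) (x : V) :
    mm b x = ∑ e : Fin 3 × Bool, (6 : ℝ≥0∞)⁻¹ * ENNReal.ofReal (Real.exp (-b (x + dir e))) := by
  unfold mm
  rw [ENNReal.ofReal_div_of_pos (by norm_num), ENNReal.ofReal_sum_of_nonneg
    (fun e _ => (Real.exp_pos _).le), div_eq_mul_inv, mul_comm, ← mul_sum]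
  congr 2
  norm_num

theorem Ex_unif (g : Fin 3 × Bool → ℝ≥0∞) :
    Ex (PMF.uniformOfFintype (Fin 3 × Bool)) g = ∑ e : Fin 3 × Bool, (6 : ℝ≥0∞)⁻¹ * g e := by
  unfold Ex
  rw [tsum_fintype]
  refine sum_congr rfl fun e _ => ?_
  rw [PMF.uniformOfFintype_apply]
  congr 2

theorem Ex_children (z : V) (b : V → ℝ) (x : V) (k : ℕ) : ∀ s : St,
    Ex (children x k s) (WW z b) ≤ mm b x ^ k * WW z b s := by
  induction k with
  | zero =>
    intro s
    rw [children, Ex_pure, pow_zero, one_mul]
  | succ k ih =>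
    intro s
    rw [children, Ex_bind, Ex_unif]
    calc ∑ e : Fin 3 × Bool, (6 : ℝ≥0∞)⁻¹ * Ex (children x k (put s (x + dir e))) (WW z b)
        ≤ ∑ e : Fin 3 × Bool, (6 : ℝ≥0∞)⁻¹ * (mm b x ^ k *
            (ENNReal.ofReal (Real.exp (-b (x + dir e))) * WW z b s)) := by
          refine sum_le_sum fun e _ => ?_
          gcongr
          exact (ih _).trans (mul_le_mul_right (WW_put z b s _) _)
      _ = ∑ e : Fin 3 × Bool, ((6 : ℝ≥0∞)⁻¹ * ENNReal.ofReal (Real.exp (-b (x + dir e)))) *
            (mm b x ^ k * WW z b s) := by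
          refine sum_congr rfl fun e _ => ?_
          ring
      _ = mm b x ^ (k + 1) * WW z b s := by
          rw [← sum_mul, ← mm_eq, pow_succ]
          ring

theorem Ex_top (ν : PMF ℕ) (z : V) (b : V → ℝ) (x : V) (s : St) :
    Ex (top ν x s) (WW z b) ≤ Ex ν (fun k => mm b x ^ k) * WW z b s := by
  unfold top
  rw [Ex_bind]
  calc Ex ν (fun k => Ex (children x k s) (WW z b)) ≤ Ex ν (fun k => mm b x ^ k * WW z b s) :=
        Ex_mono _ fun k _ => Ex_children z b x k s
    _ = Ex ν (fun k => WW z b s * mm b x ^ k) := by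
        congr 1; funext k; ring
    _ = Ex ν (fun k => mm b x ^ k) * WW z b s := by
        rw [Ex_const_mul, mul_comm]

theorem t_SUP : C_SUP := by
  classical
  intro ν C1 hgf N z b hb hsub s hs
  unfold stepF
  split_ifs with hact hm
  · -- a particle branches
    obtain ⟨x, hx⟩ : ∃ x, x = sel N s := ⟨_, rfl⟩
    have hxL : x ∈ s.L := by
      rw [hx]
      unfold sel
      rw [dif_pos hact]
      exact hact.choose_spec.1
    rw [← hx]
    refine (Ex_top ν z b x _).trans ?_
    by_cases hz : z ∈ s.A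
    · rw [WW_zero (s := ⟨s.A, s.L.erase x, s.m⟩) hz, mul_zero]
      exact zero_le
    · have hxz : x ≠ z := fun h => hz (h ▸ hs x hxL)
      have h1 := hgf (fun e => b (x + dir e)) (fun e => hb _)
      have h2 : 1 - (∑ e : Fin 3 × Bool, b (x + dir e)) / 6 +
          C1 * (∑ e : Fin 3 × Bool, b (x + dir e) ^ 2) / 6 ≤ Real.exp (-b x) := by
        have h3 := hsub x hxz
        unfold PP at h3
        have h4 := Real.add_one_le_exp (-b x)
        have h5 : C1 * (∑ e : Fin 3 × Bool, b (x + dir e) ^ 2) / 6 =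
          C1 * ((∑ e : Fin 3 × Bool, b (x + dir e) ^ 2) / 6) := by ring
        rw [h5]
        linarith
      have h6 : Ex ν (fun k => mm b x ^ k) ≤ ENNReal.ofReal (Real.exp (-b x)) :=
        h1.trans (ENNReal.ofReal_le_ofReal h2)
      rw [WW_pos (s := ⟨s.A, s.L.erase x, s.m⟩) hz, WW_pos hz]
      refine (mul_le_mul_left h6 _).trans ?_
      rw [← ENNReal.ofReal_mul (Real.exp_pos _).le, ← Real.exp_add]
      apply le_of_eq
      congr 2
      have h7 : (s.L.map b).sum = b x + ((s.L.erase x).map b).sum := by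
        rw [((List.perm_cons_erase hxL).map b).sum_eq, List.map_cons, List.sum_cons]
      unfold Phx
      simp only [h7]
      ring
  · rw [Ex_pure]
  · rw [Ex_pure]
    by_cases hz : z ∈ s.A
    · rw [WW_zero (s := lau s) hz]
      exact zero_le
    · rw [WW_pos (s := lau s) hz, WW_pos hz]
      apply le_of_eq
      congr 2
      unfold Phx lau
      simp only [List.map_cons, List.sum_cons]
      have : ((s.m - 1 : ℕ) : ℝ) = (s.m : ℝ) - 1 := by
        rw [Nat.cast_sub (by omega)]; simp
      rw [this]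
      ring

end Pool.Agent.K1H96.UB
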